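import Pool.Agent.Q161.PermList

/-!
# Expected consecutive pattern counts are not always unimodal in the inversion number

For `π = 23451` and `n = 7 = |π| + 2` one has `E_{7,7}(π) = 12/359`, `E_{7,8}(π) = 15/455` and
`E_{7,9}(π) = 18/531`, so that `E_{7,7}(π) > E_{7,8}(π) < E_{7,9}(π)`. The counts are evaluated by
the kernel on the list of all permutations of seven letters.
-/

set_option autoImplicit false

namespace Pool.Agent.Results.MP_094caa_co.NotUnimodal

open Finset Q161.PermList

/-- the number of inversions of `σ` -/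
def inv {n : ℕ} (σ : Equiv.Perm (Fin n)) : ℕ :=
  (univ.filter (fun p : Fin n × Fin n => p.1 < p.2 ∧ σ p.2 < σ p.1)).card

/-- `π` occurs consecutively in `σ` at position `i` (counted from `0`): the block
`σ(i) ⋯ σ(i+k-1)` exists and is order-isomorphic to `π`. -/
def Occ {k n : ℕ} (π : Equiv.Perm (Fin k)) (σ : Equiv.Perm (Fin n)) (i : ℕ) : Prop :=
  ∃ _h : i + k ≤ n, ∀ a b : Fin k,
    σ ⟨i + a, by omega⟩ < σ ⟨i + b, by omega⟩ ↔ π a < π b

/-- the number of occurrences of `π` in `σ` -/
noncomputable def occ {k n : ℕ} (π : Equiv.Perm (Fin k)) (σ : Equiv.Perm (Fin n)) : ℕ :=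
  Nat.card {i : ℕ // Occ π σ i}

/-- `E_{n,m}(π)`: the expected number of occurrences of `π` in a uniformly random permutation of
`n` letters with `m` inversions -/
noncomputable def E {k : ℕ} (n m : ℕ) (π : Equiv.Perm (Fin k)) : ℝ :=
  (∑ σ : Equiv.Perm (Fin n) with inv σ = m, (occ π σ : ℝ)) /
    ((univ.filter (fun σ : Equiv.Perm (Fin n) => inv σ = m)).card : ℝ)

/-- the finite sequence `a 0, …, a N` is unimodal -/
def Unimodal (N : ℕ) (a : ℕ → ℝ) : Prop :=
  ∃ j ≤ N, (∀ i < j, a i ≤ a (i + 1)) ∧ (∀ i, j ≤ i → i < N → a (i + 1) ≤ a i)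

/-- the pattern `23451` -/
def pat : Equiv.Perm (Fin 5) := finRotate 5

/-- `23451` occurs at position `i` of the list `l` -/
def occB (l : List ℕ) : Bool :=
  match l with
  | a :: b :: c :: d :: e :: _ =>
    Nat.blt e a && (Nat.blt a b && (Nat.blt b c && Nat.blt c d))
  | _ => false

/-- number of occurrences of `23451` in a list of length 7 -/
def occL (l : List ℕ) : ℕ :=
  (if occB l then 1 else 0) + (if occB l.tail then 1 else 0) + (if occB l.tail.tail then 1 else 0)

theorem occ_pat_iff (σ : Equiv.Perm (Fin 7)) (i : ℕ) : Occ pat σ i ↔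
    ∃ _h : i + 5 ≤ 7, (σ ⟨i + 4, by omega⟩ : ℕ) < σ ⟨i, by omega⟩ ∧
      (σ ⟨i, by omega⟩ : ℕ) < σ ⟨i + 1, by omega⟩ ∧
      (σ ⟨i + 1, by omega⟩ : ℕ) < σ ⟨i + 2, by omega⟩ ∧
      (σ ⟨i + 2, by omega⟩ : ℕ) < σ ⟨i + 3, by omega⟩ := by
  unfold Occ
  constructor
  · rintro ⟨h, H⟩
    refine ⟨h, ?_, ?_, ?_, ?_⟩
    · exact (H 4 0).2 (by decide)
    · exact (H 0 1).2 (by decide)
    · exact (H 1 2).2 (by decide)
    · exact (H 2 3).2 (by decide)
  · rintro ⟨h, h1, h2, h3, h4⟩
    refine ⟨h, ?_⟩
    intro a b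
    have p0 : pat 0 = 1 := by decide
    have p1 : pat 1 = 2 := by decide
    have p2 : pat 2 = 3 := by decide
    have p3 : pat 3 = 4 := by decide
    have p4 : pat 4 = 0 := by decide
    have q0 : (pat 0 : ℕ) = 1 := by decide
    have q1 : (pat 1 : ℕ) = 2 := by decide
    have q2 : (pat 2 : ℕ) = 3 := by decide
    have q3 : (pat 3 : ℕ) = 4 := by decide
    have q4 : (pat 4 : ℕ) = 0 := by decide
    rw [Fin.lt_def, Fin.lt_def]
    fin_cases a <;> fin_cases b <;>
      simp only [Fin.zero_eta, Fin.mk_one, Fin.reduceFinMk, q0, q1, q2, q3, q4] <;>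
      (constructor <;> intro hh) <;>
      simp at hh ⊢ <;> omega

theorem occ_pat (σ : Equiv.Perm (Fin 7)) : occ pat σ = occL (toL σ) := by
  classical
  have h0 : occ pat σ = ∑ i ∈ range 3, if Occ pat σ i then 1 else 0 := by
    unfold occ
    rw [← Finset.card_filter, ← Nat.card_eq_finsetCard]
    apply Nat.card_congr
    apply Equiv.subtypeEquivRight
    intro i
    simp only [mem_filter, mem_range]
    constructor
    · intro h
      exact ⟨by have := h.1; omega, h⟩
    · exact fun h => h.2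
  rw [h0]
  simp only [Finset.sum_range_succ, Finset.sum_range_zero, occ_pat_iff, occL, toL, occB,
    List.ofFn_succ, List.tail_cons]
  simp [Nat.blt_eq]

theorem sum_eq' (m : ℕ) : (∑ σ : Equiv.Perm (Fin 7) with inv σ = m, (occ pat σ : ℝ)) =
    ((((List.range 7).permutations').map
      (fun l => if Nat.beq (invL l) m then occL l else 0)).sum : ℕ) := by
  rw [Finset.sum_filter, ← sum_eq (fun σ : Equiv.Perm (Fin 7) => if inv σ = m then occ pat σ else 0)]
  · push_cast
    rfl
  · intro σ
    have h1 : inv σ = invL (toL σ) := inv_eq σ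
    rw [h1, occ_pat]
    simp only [Nat.beq_eq]

theorem card_eq' (m : ℕ) : ((univ.filter (fun σ : Equiv.Perm (Fin 7) => inv σ = m)).card) =
    ((List.range 7).permutations').countP (fun l => Nat.beq (invL l) m) := by
  rw [card_eq]
  intro σ
  have h1 : inv σ = invL (toL σ) := inv_eq σ
  rw [h1]
  simp

set_option maxRecDepth 100000 in
theorem E7 : E 7 7 pat = 12 / 359 := by
  unfold E
  rw [sum_eq', card_eq']
  have h1 : (((List.range 7).permutations').map
      (fun l => if Nat.beq (invL l) 7 then occL l else 0)).sum = 12 := by decide +kernel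
  have h2 : ((List.range 7).permutations').countP (fun l => Nat.beq (invL l) 7) = 359 := by
    decide +kernel
  rw [h1, h2]
  norm_num

set_option maxRecDepth 100000 in
theorem E8 : E 7 8 pat = 15 / 455 := by
  unfold E
  rw [sum_eq', card_eq']
  have h1 : (((List.range 7).permutations').map
      (fun l => if Nat.beq (invL l) 8 then occL l else 0)).sum = 15 := by decide +kernel
  have h2 : ((List.range 7).permutations').countP (fun l => Nat.beq (invL l) 8) = 455 := by
    decide +kernel
  rw [h1, h2]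
  norm_num

set_option maxRecDepth 100000 in
theorem E9 : E 7 9 pat = 18 / 531 := by
  unfold E
  rw [sum_eq', card_eq']
  have h1 : (((List.range 7).permutations').map
      (fun l => if Nat.beq (invL l) 9 then occL l else 0)).sum = 18 := by decide +kernel
  have h2 : ((List.range 7).permutations').countP (fun l => Nat.beq (invL l) 9) = 531 := by
    decide +kernel
  rw [h1, h2]
  norm_num

/-- For `π = 23451` one has `E_{7,7}(π) = 12/359`, `E_{7,8}(π) = 15/455`, `E_{7,9}(π) = 18/531`,
hence a strict local minimum at `m = 8`, and it is not true that `E_{n,0}(π), …, E_{n,C(n,2)}(π)` is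
unimodal for every consecutive pattern `π` and every `n ≥ |π| + 2`. -/
theorem result :
    (E 7 7 pat = 12 / 359 ∧ E 7 8 pat = 15 / 455 ∧ E 7 9 pat = 18 / 531 ∧
      E 7 8 pat < E 7 7 pat ∧ E 7 8 pat < E 7 9 pat) ∧
    ¬ ∀ (k : ℕ) (π : Equiv.Perm (Fin k)) (n : ℕ), k + 2 ≤ n →
      Unimodal (n.choose 2) (fun m => E n m π) := by
  refine ⟨⟨E7, E8, E9, by rw [E7, E8]; norm_num, by rw [E8, E9]; norm_num⟩, ?_⟩
  intro h
  obtain ⟨j, _, h1, h2⟩ := h 5 pat 7 (by norm_num)
  by_cases hj : j ≤ 8
  · have h3 : E 7 (8 + 1) pat ≤ E 7 8 pat := h2 8 hj (by decide)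
    have h4 : E 7 (8 + 1) pat = 18 / 531 := E9
    rw [h4, E8] at h3
    norm_num at h3
  · have h3 : E 7 7 pat ≤ E 7 (7 + 1) pat := h1 7 (by omega)
    have h4 : E 7 (7 + 1) pat = 15 / 455 := E8
    rw [h4, E7] at h3
    norm_num at h3

end Pool.Agent.Results.MP_094caa_co.NotUnimodal
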